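import Mathlib
import Pool.Agent.Helper5.OS.Springer

set_option autoImplicit false

/-!
The theorem of Amer and Brumer: two quadratic forms `f`, `g` over a field `K` have a common zero if
`f + T g` has a zero over `K(T)`.
-/

namespace Pool.Agent.Helper54.SD

open Polynomial Matrix

variable {K : Type*} [Field K] {n : ℕ}

/-- the bilinear form of a matrix, over an algebra -/
def bl (A : Matrix (Fin n) (Fin n) K) {R : Type*} [CommRing R] [Algebra K R] (x y : Fin n → R) :
    R := ∑ i, ∑ j, algebraMap K R (A i j) * x i * y j

theorem bl_symm {A : Matrix (Fin n) (Fin n) K} (hA : A.IsSymm) {R : Type*} [CommRing R]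
    [Algebra K R] (x y : Fin n → R) : bl A x y = bl A y x := by
  rw [bl, bl, Finset.sum_comm]
  refine Finset.sum_congr rfl fun i _ => Finset.sum_congr rfl fun j _ => ?_
  rw [← hA.apply i j]; ring

theorem bl_add_left (A : Matrix (Fin n) (Fin n) K) {R : Type*} [CommRing R] [Algebra K R]
    (x y z : Fin n → R) : bl A (x + y) z = bl A x z + bl A y z := by
  simp only [bl, Pi.add_apply, mul_add, add_mul, Finset.sum_add_distrib]

theorem bl_smul_left (A : Matrix (Fin n) (Fin n) K) {R : Type*} [CommRing R] [Algebra K R]
    (c : R) (x z : Fin n → R) : bl A (c • x) z = c * bl A x z := by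
  simp only [bl, Pi.smul_apply, smul_eq_mul, Finset.mul_sum]
  refine Finset.sum_congr rfl fun i _ => Finset.sum_congr rfl fun j _ => ?_
  ring

theorem bl_add_right (A : Matrix (Fin n) (Fin n) K) {R : Type*} [CommRing R] [Algebra K R]
    (x y z : Fin n → R) : bl A x (y + z) = bl A x y + bl A x z := by
  simp only [bl, Pi.add_apply, mul_add, Finset.sum_add_distrib]

theorem bl_smul_right (A : Matrix (Fin n) (Fin n) K) {R : Type*} [CommRing R] [Algebra K R]
    (c : R) (x z : Fin n → R) : bl A x (c • z) = c * bl A x z := by
  simp only [bl, Pi.smul_apply, smul_eq_mul, Finset.mul_sum]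
  refine Finset.sum_congr rfl fun i _ => Finset.sum_congr rfl fun j _ => ?_
  ring

theorem map_bl (A : Matrix (Fin n) (Fin n) K) {R S : Type*} [CommRing R] [Algebra K R]
    [CommRing S] [Algebra K S] (φ : R →ₐ[K] S) (x y : Fin n → R) :
    φ (bl A x y) = bl A (fun i => φ (x i)) (fun i => φ (y i)) := by
  simp only [bl, map_sum, map_mul, AlgHom.commutes]

/-- constant vectors -/
theorem bl_C (A : Matrix (Fin n) (Fin n) K) (x y : Fin n → K) :
    bl A (fun i => (C (x i) : K[X])) (fun i => C (y i)) = C (bl A x y) := by
  simp only [bl, map_sum, map_mul, Polynomial.algebraMap_eq, Algebra.algebraMap_self,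
    RingHom.id_apply]

/-- coefficients of the values, one constant argument -/
theorem coeff_bl_const (A : Matrix (Fin n) (Fin n) K) (x : Fin n → K[X]) (y : Fin n → K) (m : ℕ) :
    (bl A x (fun i => (C (y i) : K[X]))).coeff m = bl A (fun i => (x i).coeff m) y := by
  simp only [bl, finsetSum_coeff, Polynomial.algebraMap_eq, Algebra.algebraMap_self,
    RingHom.id_apply]
  refine Finset.sum_congr rfl fun i _ => Finset.sum_congr rfl fun j _ => ?_
  rw [coeff_mul_C, coeff_C_mul]

/-- the top coefficients of the value -/
theorem coeff_bl_top (A : Matrix (Fin n) (Fin n) K) (hA : A.IsSymm) (x : Fin n → K[X]) (d : ℕ)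
    (hx : ∀ i, (x i).natDegree ≤ d + 1) :
    (bl A x x).coeff (2 * (d + 1)) = bl A (fun i => (x i).coeff (d + 1))
      (fun i => (x i).coeff (d + 1)) ∧
    (bl A x x).coeff (2 * d + 1) = 2 * bl A (fun i => (x i).coeff (d + 1))
      (fun i => (x i).coeff d) ∧ (bl A x x).natDegree ≤ 2 * (d + 1) := by
  -- split off the leading term
  set s : Fin n → K := fun i => (x i).coeff (d + 1) with hs
  set t : Fin n → K := fun i => (x i).coeff d with ht
  set cs : Fin n → K[X] := fun i => C (s i) with hcs
  set u : Fin n → K[X] := fun i => (x i).erase (d + 1) with hu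
  have hxu : x = u + (X ^ (d + 1) : K[X]) • cs := by
    funext i
    simp only [Pi.add_apply, Pi.smul_apply, smul_eq_mul, hu, hcs, hs]
    conv_lhs => rw [← monomial_add_erase (x i) (d + 1)]
    rw [← C_mul_X_pow_eq_monomial]; ring
  have hud : ∀ i, (u i).natDegree ≤ d := by
    intro i
    rw [natDegree_le_iff_coeff_eq_zero]
    intro N hN
    simp only [hu, coeff_erase]
    split_ifs with h
    · rfl
    · exact coeff_eq_zero_of_natDegree_lt (lt_of_le_of_lt (hx i) (by omega))
  have hbd : ∀ (y z : Fin n → K[X]) (a b : ℕ), (∀ i, (y i).natDegree ≤ a) →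
      (∀ i, (z i).natDegree ≤ b) → (bl A y z).natDegree ≤ a + b := by
    intro y z a b hy hz
    refine natDegree_sum_le_of_forall_le _ _ fun i _ => ?_
    refine natDegree_sum_le_of_forall_le _ _ fun j _ => ?_
    rw [Polynomial.algebraMap_eq]
    refine (natDegree_mul_le).trans (add_le_add ?_ (hz j))
    exact (natDegree_C_mul_le _ _).trans (hy i)
  have hcsd : ∀ i, (cs i).natDegree ≤ 0 := fun i => (natDegree_C _).le
  have e : bl A x x = bl A u u + X ^ (d + 1) * (2 * bl A u cs) +
      X ^ (2 * (d + 1)) * C (bl A s s) := by
    rw [hxu, bl_add_left, bl_add_right, bl_add_right, bl_smul_left, bl_smul_left, bl_smul_right,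
      bl_smul_right, bl_symm hA cs u, hcs, bl_C]
    ring
  have h1 : (bl A u u).natDegree ≤ d + d := hbd u u d d hud hud
  have h2 : (bl A u cs).natDegree ≤ d + 0 := hbd u cs d 0 hud hcsd
  have c2 : (2 * bl A u cs : K[X]) = C 2 * bl A u cs := by rw [map_ofNat]
  have hut : ∀ i, (u i).coeff d = t i := by
    intro i
    simp only [hu, coeff_erase, ht]
    rw [if_neg (by omega)]
  refine ⟨?_, ?_, ?_⟩
  · rw [e, coeff_add, coeff_add, coeff_eq_zero_of_natDegree_lt (by omega), coeff_X_pow_mul',
      coeff_X_pow_mul', if_pos (by omega), if_pos (le_refl _), c2, coeff_C_mul,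
      coeff_eq_zero_of_natDegree_lt (by omega), Nat.sub_self, coeff_C_zero]
    ring
  · rw [e, coeff_add, coeff_add, coeff_eq_zero_of_natDegree_lt (by omega), coeff_X_pow_mul',
      coeff_X_pow_mul', if_pos (by omega), if_neg (by omega), c2, coeff_C_mul,
      show 2 * d + 1 - (d + 1) = d by omega, hcs, coeff_bl_const]
    have : (fun i => (u i).coeff d) = t := funext hut
    rw [this, bl_symm hA]
    ring
  · rw [e]
    refine (natDegree_add_le _ _).trans (max_le ((natDegree_add_le _ _).trans
      (max_le (by omega) ?_)) ?_)
    · refine (natDegree_mul_le).trans ?_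
      rw [natDegree_X_pow, c2]
      have := natDegree_C_mul_le (2 : K) (bl A u cs)
      omega
    · refine (natDegree_mul_le).trans ?_
      rw [natDegree_X_pow, natDegree_C, add_zero]

/-- **Amer, Brumer.** -/
theorem amer_brumer [NeZero (2 : K)] (A B : Matrix (Fin n) (Fin n) K) (hA : A.IsSymm)
    (hB : B.IsSymm) : ∀ (d : ℕ) (v : Fin n → K[X]), v ≠ 0 → (∀ i, (v i).natDegree ≤ d) →
      bl A v v + X * bl B v v = 0 → ∃ s : Fin n → K, s ≠ 0 ∧ bl A s s = 0 ∧ bl B s s = 0 := by
  intro d
  induction d with
  | zero =>
    intro v hv hd h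
    have hvc : v = fun i => C ((v i).coeff 0) := by
      funext i; exact eq_C_of_natDegree_le_zero (hd i)
    set s : Fin n → K := fun i => (v i).coeff 0 with hs
    have hs0 : s ≠ 0 := by
      rintro h0
      apply hv
      rw [hvc]
      funext i
      have := congrFun h0 i
      rw [hs] at this
      simp only [Pi.zero_apply] at this ⊢
      rw [this, C_0]
    rw [hvc] at h
    have hC : bl A s s = 0 ∧ bl B s s = 0 := by
      have h' : C (bl A s s) + X * C (bl B s s) = 0 := by rw [← bl_C, ← bl_C]; exact h
      have h0 := congrArg (fun p => coeff p 0) h'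
      have h1 := congrArg (fun p => coeff p 1) h'
      simp at h0 h1
      exact ⟨h0, h1⟩
    exact ⟨s, hs0, hC⟩
  | succ d ih =>
    intro v hv hd h
    set s : Fin n → K := fun i => (v i).coeff (d + 1) with hs
    by_cases hs0 : s = 0
    · refine ih v hv (fun i => ?_) h
      rw [natDegree_le_iff_coeff_eq_zero]
      intro N hN
      by_cases hN' : N = d + 1
      · rw [hN']; exact congrFun hs0 i
      · exact coeff_eq_zero_of_natDegree_lt (lt_of_le_of_lt (hd i) (by omega))
    set t : Fin n → K := fun i => (v i).coeff d with ht
    obtain ⟨a1, a2, a3⟩ := coeff_bl_top A hA v d hd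
    obtain ⟨b1, b2, b3⟩ := coeff_bl_top B hB v d hd
    -- the two top coefficients
    have g0 : bl B s s = 0 := by
      have h1 := congrArg (fun p => coeff p (2 * (d + 1) + 1)) h
      simp only [coeff_add, coeff_zero] at h1
      rw [coeff_eq_zero_of_natDegree_lt (by omega), zero_add, coeff_X_mul, b1] at h1
      exact h1
    have f0 : bl A s s + 2 * bl B s t = 0 := by
      have h1 := congrArg (fun p => coeff p (2 * (d + 1))) h
      simp only [coeff_add, coeff_zero] at h1
      rw [a1, show 2 * (d + 1) = (2 * d + 1) + 1 by ring, coeff_X_mul, b2] at h1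
      exact h1
    by_cases hf : bl A s s = 0
    · exact ⟨s, hs0, hf, g0⟩
    -- the reflection
    set cs : Fin n → K[X] := fun i => C (s i) with hcs
    set q : K[X] := bl A v cs + X * bl B v cs with hq
    set v' : Fin n → K[X] := (C (bl A s s)) • v + (- (2 * q)) • cs with hv'
    have hAs : bl A cs cs = C (bl A s s) := bl_C A s s
    have hBs : bl B cs cs = 0 := by rw [hcs, bl_C, g0, C_0]
    refine ih v' ?_ ?_ ?_
    · intro h0
      -- `v` would be a multiple of `cs`
      have h1 : ∀ i, C (bl A s s) * v i = 2 * q * cs i := by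
        intro i
        have := congrFun h0 i
        simp only [hv', Pi.add_apply, Pi.smul_apply, smul_eq_mul, Pi.zero_apply] at this
        linear_combination this
      have h2 : C (bl A s s) • v = (2 * q) • cs := by
        funext i; exact h1 i
      have h3 : C (bl A s s) ^ 2 * (bl A v v + X * bl B v v) =
          (2 * q) ^ 2 * C (bl A s s) := by
        have e1 : C (bl A s s) ^ 2 * bl A v v = (2 * q) ^ 2 * bl A cs cs := by
          have : bl A (C (bl A s s) • v) (C (bl A s s) • v) = bl A ((2 * q) • cs) ((2 * q) • cs) := by
            rw [h2]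
          rw [bl_smul_left, bl_smul_right, bl_smul_left, bl_smul_right] at this
          linear_combination this
        have e2 : C (bl A s s) ^ 2 * bl B v v = (2 * q) ^ 2 * bl B cs cs := by
          have : bl B (C (bl A s s) • v) (C (bl A s s) • v) = bl B ((2 * q) • cs) ((2 * q) • cs) := by
            rw [h2]
          rw [bl_smul_left, bl_smul_right, bl_smul_left, bl_smul_right] at this
          linear_combination this
        rw [hAs] at e1
        rw [hBs] at e2
        linear_combination e1 + X * e2
      rw [h, mul_zero] at h3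
      have hCne : C (bl A s s) ≠ 0 := by rwa [Ne, C_eq_zero]
      have h4 : (2 * q : K[X]) = 0 := by
        have := (mul_eq_zero.mp h3.symm).resolve_right hCne
        exact pow_eq_zero_iff (two_ne_zero) |>.mp this
      apply hv
      funext i
      have h5 := h1 i
      rw [h4, zero_mul] at h5
      exact (mul_eq_zero.mp h5).resolve_left hCne
    · intro i
      have hqd : q.natDegree ≤ d + 1 ∧ q.coeff (d + 1) = bl A s s + bl B t s := by
        have q1 : (bl A v cs).natDegree ≤ d + 1 := by
          rw [natDegree_le_iff_coeff_eq_zero]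
          intro N hN
          rw [hcs, coeff_bl_const]
          have : (fun i => (v i).coeff N) = 0 := by
            funext i; exact coeff_eq_zero_of_natDegree_lt (lt_of_le_of_lt (hd i) hN)
          rw [this]; simp [bl]
        have q2 : (bl B v cs).natDegree ≤ d := by
          rw [natDegree_le_iff_coeff_eq_zero]
          intro N hN
          rw [hcs, coeff_bl_const]
          by_cases hN' : N = d + 1
          · rw [hN']; exact g0
          · have : (fun i => (v i).coeff N) = 0 := by
              funext i; exact coeff_eq_zero_of_natDegree_lt (lt_of_le_of_lt (hd i) (by omega))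
            rw [this]; simp [bl]
        constructor
        · rw [hq]
          refine (natDegree_add_le _ _).trans (max_le q1 ?_)
          refine (natDegree_mul_le).trans ?_
          have := natDegree_X_le (R := K)
          omega
        · rw [hq, coeff_add, coeff_X_mul, hcs, coeff_bl_const, coeff_bl_const]
      have hbt : bl B t s = bl B s t := bl_symm hB t s
      have hvi : v' i = C (bl A s s) * v i - C 2 * (q * C (s i)) := by
        simp only [hv', Pi.add_apply, Pi.smul_apply, smul_eq_mul, hcs, map_ofNat]; ring
      rw [hvi, natDegree_le_iff_coeff_eq_zero]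
      intro N hN
      rw [coeff_sub, coeff_C_mul, coeff_C_mul, coeff_mul_C]
      by_cases hN' : N = d + 1
      · rw [hN', hqd.2, hbt]
        have : (v i).coeff (d + 1) = s i := rfl
        rw [this]
        linear_combination -(s i) * f0
      · rw [coeff_eq_zero_of_natDegree_lt (lt_of_le_of_lt (hd i) (by omega)),
          coeff_eq_zero_of_natDegree_lt (lt_of_le_of_lt hqd.1 (by omega))]
        ring
    · -- the reflected vector is a zero
      have eA : bl A v' v' = C (bl A s s) ^ 2 * bl A v v -
          4 * C (bl A s s) * q * bl A v cs + 4 * q ^ 2 * C (bl A s s) := by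
        rw [hv', bl_add_left, bl_add_right, bl_add_right, bl_smul_left, bl_smul_left, bl_smul_right,
          bl_smul_right, bl_smul_left, bl_smul_right, bl_smul_left, bl_smul_right,
          bl_symm hA cs v, hAs]
        ring
      have eB : bl B v' v' = C (bl A s s) ^ 2 * bl B v v -
          4 * C (bl A s s) * q * bl B v cs := by
        rw [hv', bl_add_left, bl_add_right, bl_add_right, bl_smul_left, bl_smul_left, bl_smul_right,
          bl_smul_right, bl_smul_left, bl_smul_right, bl_smul_left, bl_smul_right,
          bl_symm hB cs v, hBs]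
        ring
      rw [eA, eB]
      linear_combination (C (bl A s s)) ^ 2 * h + 4 * C (bl A s s) * q * hq

end Pool.Agent.Helper54.SD
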