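import Pool.Agent.Helper69.SD.Ind

/-! # SD, odd form: points of the fibre with `w ≠ 0` (case C) -/

set_option autoImplicit false
set_option linter.unusedVariables false
set_option linter.unusedSectionVars false

namespace Pool.Agent.Helper54.SD

open MvPolynomial Module Matrix QuadraticMap Pool.Agent.Helper16 Pool.Agent.Helper69.SD

variable {D : Dat}

theorem v5_lift {R : Type} [CommRing R] [Algebra ℂ R] (D : Dat) (t : Fin 2 → R) (v : Fin 5 → R) :
    v5 (D.lift t v) = (t 0 * v 4) • v := by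
  funext i
  fin_cases i <;> rfl

/-- relations between the two differentials at a point of the fibre with `w ≠ 0` -/
theorem relation (hs : Smooth D.F) (s : Fin 5 → P2) (hH : ∀ i, D.H (X : Fin 2 → P2) i s = 0)
    (hw : s 4 ≠ 0) (α β : P2)
    (hab : ∀ v : Fin 4 → P2, α * D.f X s 0 v + β * D.f X s 1 v = 0) :
    β = 0 ∧ ∀ u : Fin 5 → P2, α * polar (D.H1 X) s u = 0 := by
  have h1 : D.H1 (X : Fin 2 → P2) s = 0 := hH 0
  have h2 : D.H2 (X : Fin 2 → P2) s = 0 := hH 1
  obtain ⟨-, e1, e2⟩ := Q_lift D (X : Fin 2 → P2) s h1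
  have h5 := v5_lift D (X : Fin 2 → P2) s
  have hX0 : (X 0 : P2) ≠ 0 := X_ne_zero 0
  have hm : (X 0 * s 4 : P2) ≠ 0 := mul_ne_zero hX0 hw
  have hC : ∑ i, tv (X : Fin 2 → P2) i * D.C (D.lift X s) i = 0 := by
    have h6 := H2_eq D (X : Fin 2 → P2) (D.lift X s)
    rw [h5, QuadraticMap.map_smul, h2, e1, smul_zero] at h6
    have h7 : X 0 * ∑ i, tv (X : Fin 2 → P2) i * D.C (D.lift X s) i = 0 := by
      linear_combination -h6
    exact (mul_eq_zero.1 h7).resolve_left hX0
  obtain ⟨r1, -, r3⟩ := indep_aux (s := D.lift X s) hs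
    (cubic_lift D X s hX0 hw h1 h2) (mul_ne_zero hm hw) e1 e2 hC
    (fun i => by rw [h5, QuadraticMap.map_smul, hH i, smul_zero]) α β
    (fun v => by
      have e : ∀ i, D.f X (v5 (D.lift X s)) i v = X 0 * s 4 * D.f X s i v := by
        intro i
        rw [Dat.f, h5, polar_smul_left, smul_eq_mul]
        rfl
      rw [e, e]
      linear_combination (X 0 * s 4) * hab v)
  refine ⟨r1, fun u => ?_⟩
  have h8 := r3 (Fin.snoc u 0 : Fin 6 → P2)
  have e6 : v5 (Fin.snoc u 0 : Fin 6 → P2) = u := by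
    funext j
    simp [v5]
  rw [← polar_H1, h5, e6, polar_smul_left, smul_eq_mul] at h8
  have h9 : X 0 * s 4 * (α * polar (D.H1 X) s u) = 0 := by linear_combination h8
  exact (mul_eq_zero.1 h9).resolve_left hm

/-- case C: a point with `w ≠ 0` outside the radical of the first quadric -/
theorem indep_of_notRad (hs : Smooth D.F) (s : Fin 5 → P2)
    (hH : ∀ i, D.H (X : Fin 2 → P2) i s = 0) (hw : s 4 ≠ 0)
    (hr : ∃ u : Fin 5 → P2, polar (D.H1 X) s u ≠ 0) (α β : P2)
    (hab : ∀ v : Fin 4 → P2, α * D.f X s 0 v + β * D.f X s 1 v = 0) :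
    α = 0 ∧ β = 0 := by
  obtain ⟨h1, h2⟩ := relation hs s hH hw α β hab
  obtain ⟨u, hu⟩ := hr
  exact ⟨(mul_eq_zero.1 (h2 u)).resolve_right hu, h1⟩

/-- for case D: `f 1` is not zero on `w = 0` at a point with `w ≠ 0` in the radical of the first
quadric -/
theorem exists_f1_ne (hs : Smooth D.F) (s : Fin 5 → P2)
    (hH : ∀ i, D.H (X : Fin 2 → P2) i s = 0) (hw : s 4 ≠ 0)
    (hr : ∀ u : Fin 5 → P2, polar (D.H1 X) s u = 0) : ∃ v : Fin 4 → P2, D.f X s 1 v ≠ 0 := by
  by_contra hcon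
  push Not at hcon
  have := (relation hs s hH hw 0 1 (fun v => by rw [hcon v]; ring)).1
  exact one_ne_zero this

end Pool.Agent.Helper54.SD
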