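import Mathlib
import Pool.Agent.Helper5.OS.Springer
import Pool.Agent.Helper54.SD.Amer

set_option autoImplicit false

/-!
Amer, Brumer and Springer: two quadratic forms over a field of characteristic zero with a common
zero over a finite extension of odd degree have a common zero over the base field.
-/

namespace Pool.Agent.Helper54.SD

open Polynomial Matrix

variable {K : Type*} [Field K] {n : ℕ}

/-- the bilinear form over the field of fractions -/
theorem dot_eq_bl (A B : Matrix (Fin n) (Fin n) K) {R k : Type*} [CommRing R] [Algebra K R]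
    [Field k] [Algebra R k] [Algebra K k] [IsScalarTower K R k] (T : R) (x : Fin n → k) :
    x ⬝ᵥ ((A.map (algebraMap K k) + (algebraMap R k T) • B.map (algebraMap K k)) *ᵥ x) =
      bl A x x + algebraMap R k T * bl B x x := by
  simp only [dotProduct, Matrix.mulVec, bl, Matrix.add_apply, Matrix.smul_apply, Matrix.map_apply,
    smul_eq_mul, Finset.mul_sum, ← Finset.sum_add_distrib]
  refine Finset.sum_congr rfl fun i _ => Finset.sum_congr rfl fun j _ => ?_
  ring

/-- Amer, Brumer for a zero with coordinates in the field of fractions of `K[X]`. -/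
theorem amer_brumer_frac [NeZero (2 : K)] (A B : Matrix (Fin n) (Fin n) K) (hA : A.IsSymm)
    (hB : B.IsSymm) (x : Fin n → FractionRing K[X]) (hx : x ≠ 0)
    (h : bl A x x + algebraMap K[X] (FractionRing K[X]) X * bl B x x = 0) :
    ∃ s : Fin n → K, s ≠ 0 ∧ bl A s s = 0 ∧ bl B s s = 0 := by
  classical
  obtain ⟨b, hb⟩ := IsLocalization.exist_integer_multiples (nonZeroDivisors K[X]) Finset.univ x
  choose! v hv using hb
  have hv' : ∀ i, algebraMap K[X] (FractionRing K[X]) (v i) =
      algebraMap K[X] (FractionRing K[X]) b * x i := by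
    intro i
    have := hv i (Finset.mem_univ i)
    rw [this, Algebra.smul_def]
  have hb0 : algebraMap K[X] (FractionRing K[X]) b ≠ 0 := by
    rw [Ne, IsFractionRing.to_map_eq_zero_iff]
    exact nonZeroDivisors.coe_ne_zero b
  have hmap : ∀ M : Matrix (Fin n) (Fin n) K, algebraMap K[X] (FractionRing K[X]) (bl M v v) =
      algebraMap K[X] (FractionRing K[X]) b ^ 2 * bl M x x := by
    intro M
    have h1 := map_bl M (IsScalarTower.toAlgHom K K[X] (FractionRing K[X])) v v
    simp only [IsScalarTower.coe_toAlgHom'] at h1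
    rw [h1]
    have h2 : (fun i => algebraMap K[X] (FractionRing K[X]) (v i)) =
        (algebraMap K[X] (FractionRing K[X]) b) • x := by
      funext i; exact hv' i
    rw [h2, bl_smul_left, bl_smul_right]
    ring
  refine amer_brumer A B hA hB (Finset.univ.sup fun i => (v i).natDegree) v ?_
    (fun i => Finset.le_sup (f := fun i => (v i).natDegree) (Finset.mem_univ i)) ?_
  · intro h0
    apply hx
    funext i
    have h1 := hv' i
    rw [congrFun h0 i, Pi.zero_apply, map_zero] at h1
    exact (mul_eq_zero.mp h1.symm).resolve_left hb0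
  · have h1 : algebraMap K[X] (FractionRing K[X]) (bl A v v + X * bl B v v) = 0 := by
      rw [map_add, map_mul, hmap, hmap]
      linear_combination (algebraMap K[X] (FractionRing K[X]) b) ^ 2 * h
    exact (IsFractionRing.to_map_eq_zero_iff (K := FractionRing K[X])).mp h1

/-- **Amer, Brumer, Springer**, polynomial version. -/
theorem odd_point_poly [NeZero (2 : K)] (A B : Matrix (Fin n) (Fin n) K) (hA : A.IsSymm)
    (hB : B.IsSymm) (p : K[X]) (hp : Irreducible p) (ho : Odd p.natDegree)
    (f : Fin n → K[X]) (hf : ∃ i, ¬ p ∣ f i) (h1 : p ∣ bl A f f) (h2 : p ∣ bl B f f) :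
    ∃ s : Fin n → K, s ≠ 0 ∧ bl A s s = 0 ∧ bl B s s = 0 := by
  classical
  set k := FractionRing K[X] with hk
  let φ : K →+* k := algebraMap K k
  have ho' : Odd (p.map φ).natDegree := by rwa [natDegree_map]
  obtain ⟨q, hq, hqd, hqo⟩ := Helper5.OS.exists_odd_irreducible_factor _ (p.map φ) le_rfl ho'
  obtain ⟨i, hi⟩ := hf
  have hcop : IsCoprime p (f i) := hp.coprime_iff_not_dvd.mpr hi
  have hcop' : IsCoprime (p.map φ) ((f i).map φ) := hcop.map (mapRingHom φ)
  set M : Matrix (Fin n) (Fin n) k := A.map (algebraMap K k) +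
    (algebraMap K[X] k X) • B.map (algebraMap K k) with hM
  have e : (fun i => (f i).map φ) ⬝ᵥ ((M.map C) *ᵥ (fun i => (f i).map φ)) =
      (bl A f f).map φ + C (algebraMap K[X] k X) * (bl B f f).map φ := by
    simp only [dotProduct, Matrix.mulVec, bl, Matrix.add_apply, Matrix.smul_apply,
      Matrix.map_apply, smul_eq_mul, Finset.mul_sum, ← Finset.sum_add_distrib, hM,
      Polynomial.map_sum, Polynomial.map_mul, Polynomial.algebraMap_eq, Polynomial.map_C,
      map_add, map_mul]
    refine Finset.sum_congr rfl fun i _ => Finset.sum_congr rfl fun j _ => ?_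
    simp only [φ]
    ring
  have hdvd : q ∣ (fun i => (f i).map φ) ⬝ᵥ ((M.map C) *ᵥ (fun i => (f i).map φ)) := by
    rw [e]
    refine dvd_add (hqd.trans ?_) (Dvd.dvd.mul_left (hqd.trans ?_) _)
    · exact Polynomial.map_dvd φ h1
    · exact Polynomial.map_dvd φ h2
  obtain ⟨x, hx, hx0⟩ := Helper5.OS.springer_poly M q.natDegree q le_rfl hq hqo
    ⟨fun i => (f i).map φ, ⟨i, fun hd => hq.not_isUnit (hcop'.isUnit_of_dvd' hqd hd)⟩, hdvd⟩
  rw [hM, dot_eq_bl A B (R := K[X])] at hx0
  exact amer_brumer_frac A B hA hB x hx hx0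

/-- **Amer, Brumer, Springer**: a common zero of two quadratic forms over an extension of odd
degree gives one over the base field. -/
theorem odd_point [CharZero K] {L : Type*} [Field L] [Algebra K L] [FiniteDimensional K L]
    (hodd : Odd (Module.finrank K L)) (A B : Matrix (Fin n) (Fin n) K) (hA : A.IsSymm)
    (hB : B.IsSymm) (z : Fin n → L) (hz : z ≠ 0) (h1 : bl A z z = 0) (h2 : bl B z z = 0) :
    ∃ s : Fin n → K, s ≠ 0 ∧ bl A s s = 0 ∧ bl B s s = 0 := by
  classical
  obtain ⟨α, hα⟩ := Field.exists_primitive_element K L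
  have hint : IsIntegral K α := Algebra.IsIntegral.isIntegral α
  have hdeg : (minpoly K α).natDegree = Module.finrank K L := by
    rw [← IntermediateField.adjoin.finrank hint, hα]
    exact IntermediateField.finrank_top'
  have hsurj : ∀ y : L, ∃ f : K[X], aeval α f = y := by
    intro y
    have hy : y ∈ IntermediateField.adjoin K {α} := by rw [hα]; trivial
    have h1 := IntermediateField.adjoin_simple_toSubalgebra_of_isAlgebraic
      (hint.isAlgebraic)
    have hy' : y ∈ (IntermediateField.adjoin K {α}).toSubalgebra := hy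
    rw [h1] at hy'
    rw [Algebra.adjoin_singleton_eq_range_aeval] at hy'
    exact hy'
  choose f hf using hsurj
  have key : ∀ M : Matrix (Fin n) (Fin n) K, bl M z z = 0 →
      minpoly K α ∣ bl M (fun i => f (z i)) (fun i => f (z i)) := by
    intro M hM
    rw [minpoly.dvd_iff, map_bl]
    simpa only [hf] using hM
  refine odd_point_poly A B hA hB (minpoly K α) (minpoly.irreducible hint)
    (by rw [hdeg]; exact hodd) (fun i => f (z i)) ?_ (key A h1) (key B h2)
  by_contra hall
  push Not at hall
  apply hz
  funext i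
  have := (minpoly.dvd_iff).mp (hall i)
  rw [hf] at this
  exact this

end Pool.Agent.Helper54.SD
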