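import Pool.Agent.Helper54.SD.PtU
import Pool.Agent.Helper15.SD.OddPt

/-! # SD, odd form: a point of odd degree with `w = 0` gives a root of `q_T` -/

set_option autoImplicit false
set_option linter.unusedVariables false
set_option linter.unusedSectionVars false

namespace Pool.Agent.Helper54.SD

open MvPolynomial Module Matrix QuadraticMap Pool.Agent.Helper16 Pool.Agent.Helper69.SD
open Pool.Agent.Helper80.SD

/-- a root of a binary quadratic form over an extension of odd degree is proportional to a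
vector over the base field -/
theorem binary_root {K K' : Type*} [Field K] [CharZero K] [Field K'] [Algebra K K']
    (hodd : Odd (finrank K K')) {A B C : K} (hABC : ¬ (A = 0 ∧ B = 0 ∧ C = 0)) {x y : K'}
    (hxy : ¬ (x = 0 ∧ y = 0))
    (h : algebraMap K K' A * x ^ 2 + algebraMap K K' B * (x * y) + algebraMap K K' C * y ^ 2 = 0) :
    ∃ (u v : K) (γ : K'), x = γ * algebraMap K K' u ∧ y = γ * algebraMap K K' v := by
  have : CharZero K' := charZero_of_injective_algebraMap (algebraMap K K').injective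
  by_cases hδ : ∀ e : K, e ^ 2 ≠ B ^ 2 - 4 * A * C
  · exfalso
    obtain ⟨h1, h2⟩ := aniso_K' hodd hδ (x := 2 * algebraMap K K' A * x + algebraMap K K' B * y)
      (y := y) (by
        simp only [map_sub, map_mul, map_pow, map_ofNat]
        linear_combination 4 * algebraMap K K' A * h)
    rw [h2, mul_zero, add_zero] at h1
    have hx : x ≠ 0 := fun hx => hxy ⟨hx, h2⟩
    have h3 := (mul_eq_zero.1 h1).resolve_right hx
    have h4 := (mul_eq_zero.1 h3).resolve_left two_ne_zero
    have hA : A = 0 := (map_eq_zero_iff _ (algebraMap K K').injective).1 h4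
    apply hδ B
    rw [hA]
    ring
  · push Not at hδ
    obtain ⟨e, he⟩ := hδ
    by_cases hA : A = 0
    · subst hA
      have h1 : y * (algebraMap K K' B * x + algebraMap K K' C * y) = 0 := by
        rw [map_zero] at h
        linear_combination h
      rcases mul_eq_zero.1 h1 with h2 | h2
      · exact ⟨1, 0, x, by simp, by simp [h2]⟩
      · by_cases hB : B = 0
        · subst hB
          rw [map_zero, zero_mul, zero_add] at h2
          have hC : C ≠ 0 := fun hC => hABC ⟨rfl, rfl, hC⟩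
          have hC' : algebraMap K K' C ≠ 0 := by
            rwa [Ne, map_eq_zero_iff _ (algebraMap K K').injective]
          exact ⟨1, 0, x, by simp, by simp [(mul_eq_zero.1 h2).resolve_left hC']⟩
        · have hB' : algebraMap K K' B ≠ 0 := by
            rwa [Ne, map_eq_zero_iff _ (algebraMap K K').injective]
          refine ⟨-C, B, y / algebraMap K K' B, ?_, ?_⟩
          · rw [map_neg]
            field_simp
            linear_combination h2
          · field_simp
    · have hA' : algebraMap K K' A ≠ 0 := by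
        rwa [Ne, map_eq_zero_iff _ (algebraMap K K').injective]
      have h1 : (2 * algebraMap K K' A * x + algebraMap K K' B * y - algebraMap K K' e * y) *
          (2 * algebraMap K K' A * x + algebraMap K K' B * y + algebraMap K K' e * y) = 0 := by
        have he' := congrArg (algebraMap K K') he
        simp only [map_sub, map_mul, map_pow, map_ofNat] at he'
        linear_combination 4 * algebraMap K K' A * h - y ^ 2 * he'
      rcases mul_eq_zero.1 h1 with h2 | h2
      · refine ⟨e - B, 2 * A, y / (2 * algebraMap K K' A), ?_, ?_⟩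
        · rw [map_sub]
          field_simp
          linear_combination h2
        · rw [map_mul, map_ofNat]
          field_simp
      · refine ⟨-e - B, 2 * A, y / (2 * algebraMap K K' A), ?_, ?_⟩
        · rw [map_sub, map_neg]
          field_simp
          linear_combination h2
        · rw [map_mul, map_ofNat]
          field_simp

section ring

variable {R : Type} [CommRing R] [Algebra ℂ R]

/-- `y' = P J nᵀ x'` -/
noncomputable def vP (D : Dat) (t : Fin 2 → R) (x y P : R) : Fin 4 → R :=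
  ![x, y, P * (D.n t 0 1 * x + D.n t 1 1 * y), -(P * (D.n t 0 0 * x + D.n t 1 0 * y))]

/-- `q_t` -/
noncomputable def qt (D : Dat) (t : Fin 2 → R) (x y : R) : R :=
  D.qx R 0 (emb ![x, y, 0, 0]) + t 0 * D.qx R 1 (emb ![x, y, 0, 0]) +
    t 1 * D.qx R 2 (emb ![x, y, 0, 0])

theorem H2_vP (D : Dat) (t : Fin 2 → R) (x y P : R) :
    D.H2 t (emb (vP D t x y P)) =
      t 0 * qt D t x y * (cc R D.a + D.kap t * P - cc R D.b * D.dt t * P ^ 2) := by
  simp only [H2_apply, Bq_apply, qx_apply, qy_apply, l5_apply, cx_apply, cy_apply,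
    emb_apply, vP, qt, Dat.dt]
  simp [Dat.n]
  ring

theorem Bq0_vP (D : Dat) (t : Fin 2 → R) (x y P : R) :
    D.Bq R 0 (emb (vP D t x y P)) = P * (D.qx R 0 (emb ![x, y, 0, 0]) - qt D t x y) := by
  simp only [Bq_apply, qx_apply, cx_apply, emb_apply, vP, qt]
  simp [Dat.n]
  ring

/-- coefficients of `qx i` on `y' = 0`, `w = 0` -/
noncomputable def al (D : Dat) (i : Fin 3) : ℂ :=
  D.A (i + 1) 0 0 * D.A (i + 2) 0 1 - D.A (i + 1) 0 1 * D.A (i + 2) 0 0

noncomputable def be (D : Dat) (i : Fin 3) : ℂ :=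
  D.A (i + 1) 0 0 * D.A (i + 2) 1 1 + D.A (i + 1) 1 0 * D.A (i + 2) 0 1 -
    D.A (i + 1) 0 1 * D.A (i + 2) 1 0 - D.A (i + 1) 1 1 * D.A (i + 2) 0 0

noncomputable def ga (D : Dat) (i : Fin 3) : ℂ :=
  D.A (i + 1) 1 0 * D.A (i + 2) 1 1 - D.A (i + 1) 1 1 * D.A (i + 2) 1 0

theorem qx_xy (D : Dat) (i : Fin 3) (x y : R) : D.qx R i (emb ![x, y, 0, 0]) =
    cc R (al D i) * x ^ 2 + cc R (be D i) * (x * y) + cc R (ga D i) * y ^ 2 := by
  simp only [qx_apply, cx_apply, emb_apply, al, be, ga, cc, map_sub, map_add, map_mul]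
  simp
  ring

/-- the form `q_t` -/
theorem qt_xy (D : Dat) (t : Fin 2 → R) (x y : R) : qt D t x y =
    (cc R (al D 0) + t 0 * cc R (al D 1) + t 1 * cc R (al D 2)) * x ^ 2 +
      (cc R (be D 0) + t 0 * cc R (be D 1) + t 1 * cc R (be D 2)) * (x * y) +
      (cc R (ga D 0) + t 0 * cc R (ga D 1) + t 1 * cc R (ga D 2)) * y ^ 2 := by
  rw [qt, qx_xy, qx_xy, qx_xy]
  ring

theorem H1_vec (D : Dat) (t : Fin 2 → R) (v : Fin 4 → R) : D.H1 t (emb v) =
    v 2 * (D.n t 0 0 * v 0 + D.n t 1 0 * v 1) + v 3 * (D.n t 0 1 * v 0 + D.n t 1 1 * v 1) := by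
  simp only [H1_apply, Bq_apply, cx_apply, emb_apply]
  simp [Dat.n]
  ring

end ring

variable {D : Dat}

/-- `T` over the field of rational functions -/
noncomputable def tK : Fin 2 → FractionRing P2 := fun i => algebraMap P2 (FractionRing P2) (X i)

theorem del_nonsq_K (hsq : ∀ m n : P2, m ^ 2 * D.del (X : Fin 2 → P2) = n ^ 2 → m = 0)
    (e : FractionRing P2) : e ^ 2 ≠ D.del tK := by
  intro h
  obtain ⟨p, q, hq, rfl⟩ := IsFractionRing.div_surjective (A := P2) e
  have hq0 : q ≠ 0 := nonZeroDivisors.ne_zero hq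
  have hq1 : algebraMap P2 (FractionRing P2) q ≠ 0 := by
    rwa [Ne, IsFractionRing.to_map_eq_zero_iff]
  have h1 : D.del tK = algebraMap P2 (FractionRing P2) (D.del X) :=
    (map_del (IsScalarTower.toAlgHom ℂ P2 (FractionRing P2)) D X).symm
  rw [h1, div_pow, div_eq_iff (pow_ne_zero 2 hq1)] at h
  apply hq0
  apply hsq q p
  apply IsFractionRing.injective P2 (FractionRing P2)
  rw [map_mul, map_pow, map_pow]
  linear_combination -h

/-- A point of odd degree of the fourfold over the generic point with `w = 0` gives a root `u` of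
`q_T` with `qx 0 u ≠ 0`. -/
theorem root_of_point (hn : ∃ c : Fin 2 → ℂ, D.dt c ≠ 0)
    (hsq : ∀ m n : P2, m ^ 2 * D.del (X : Fin 2 → P2) = n ^ 2 → m = 0)
    {K' : Type} [Field K'] [Algebra (FractionRing P2) K']
    [Algebra ℂ K'] [IsScalarTower ℂ (FractionRing P2) K']
    (hodd : Odd (Module.finrank (FractionRing P2) K')) (x : Fin 6 → K') (h0 : D.cubic x = 0)
    (hq : D.Q x 0 ≠ 0)
    (h1 : D.Q x 1 = algebraMap (FractionRing P2) K' (algebraMap P2 _ (X 0)) * D.Q x 0)
    (h2 : D.Q x 2 = algebraMap (FractionRing P2) K' (algebraMap P2 _ (X 1)) * D.Q x 0)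
    (h4 : x 4 = 0) :
    ∃ u : Fin 2 → P2, D.qx P2 0 (emb (vu u)) + X 0 * D.qx P2 1 (emb (vu u)) +
      X 1 * D.qx P2 2 (emb (vu u)) = 0 ∧ D.qx P2 0 (emb (vu u)) ≠ 0 := by
  have : CharZero (FractionRing P2) :=
    charZero_of_injective_algebraMap (algebraMap ℂ (FractionRing P2)).injective
  have : CharZero K' := charZero_of_injective_algebraMap (algebraMap ℂ K').injective
  obtain ⟨ψ, hψ⟩ : ∃ ψ : FractionRing P2 →ₐ[ℂ] K', ψ = IsScalarTower.toAlgHom ℂ _ K' := ⟨_, rfl⟩
  have hψa : ∀ z, algebraMap (FractionRing P2) K' z = ψ z := fun z => by rw [hψ]; rfl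
  obtain ⟨t, ht⟩ : ∃ t : Fin 2 → K', t = ψ ∘ tK := ⟨_, rfl⟩
  have hinjK : Function.Injective ψ := ψ.toRingHom.injective
  have hκ : ∀ p : P2, algebraMap P2 (FractionRing P2) p = 0 → p = 0 := fun p hp => by
    rwa [IsFractionRing.to_map_eq_zero_iff] at hp
  have ht0 : t 0 ≠ 0 := by
    rw [ht]
    intro h
    have h3 := (map_eq_zero_iff ψ hinjK).1 h
    exact X_ne_zero 0 (hκ _ h3)
  have h1' : D.Q x 1 = t 0 * D.Q x 0 := by rw [h1, ht, hψa]; rfl
  have h2' : D.Q x 2 = t 1 * D.Q x 0 := by rw [h2, ht, hψa]; rfl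
  have hH := Pool.Agent.Helper15.SD.H_of_fibre D t x h0 hq h1' h2'
  have e5 : v5 x = emb ![x 0, x 1, x 2, x 3] := by
    funext j
    fin_cases j <;> simp [v5, emb_apply, h4]
  rw [e5] at hH
  have hQ0 : D.Q x 0 = D.Bq K' 0 (emb ![x 0, x 1, x 2, x 3]) := by
    rw [Q_apply, e5, h4]
    simp
  have hdt : D.dt t ≠ 0 := by
    rw [ht, ← map_dt, Ne, map_eq_zero_iff ψ hinjK]
    intro h
    have h3 : D.dt tK = algebraMap P2 (FractionRing P2) (D.dt X) :=
      (map_dt (IsScalarTower.toAlgHom ℂ P2 (FractionRing P2)) D X).symm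
    rw [h3] at h
    exact Pool.Agent.Helper94.SD.dt_ne hn (hκ _ h)
  -- `x' ≠ 0`
  have hx : ¬ (x 0 = 0 ∧ x 1 = 0) := by
    rintro ⟨ha, hb⟩
    apply hq
    rw [hQ0, Bq_apply]
    simp [cx_apply, emb_apply, ha, hb]
  -- `y' = P J nᵀ x'`
  obtain ⟨P, hP⟩ : ∃ P : K', (![x 0, x 1, x 2, x 3] : Fin 4 → K') = vP D t (x 0) (x 1) P := by
    have h3 : D.H1 t (emb ![x 0, x 1, x 2, x 3]) = 0 := hH 0
    rw [H1_vec] at h3
    simp only [cons_val_zero, cons_val_one, cons_val] at h3
    obtain ⟨r0, hr0⟩ : ∃ r, r = D.n t 0 0 * x 0 + D.n t 1 0 * x 1 := ⟨_, rfl⟩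
    obtain ⟨r1, hr1⟩ : ∃ r, r = D.n t 0 1 * x 0 + D.n t 1 1 * x 1 := ⟨_, rfl⟩
    rw [← hr0, ← hr1] at h3
    have hr : ¬ (r0 = 0 ∧ r1 = 0) := by
      rintro ⟨ha, hb⟩
      rw [hr0] at ha
      rw [hr1] at hb
      apply hx
      constructor
      · have : D.dt t * x 0 = 0 := by
          rw [Dat.dt]
          linear_combination D.n t 1 1 * ha - D.n t 1 0 * hb
        exact (mul_eq_zero.1 this).resolve_left hdt
      · have : D.dt t * x 1 = 0 := by
          rw [Dat.dt]
          linear_combination D.n t 0 0 * hb - D.n t 0 1 * ha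
        exact (mul_eq_zero.1 this).resolve_left hdt
    have key : ∀ P : K', x 2 = P * r1 → x 3 = -(P * r0) →
        (![x 0, x 1, x 2, x 3] : Fin 4 → K') = vP D t (x 0) (x 1) P := by
      intro P h5 h6
      rw [vP, ← hr0, ← hr1, ← h5, ← h6]
    by_cases hr1' : r1 = 0
    · have hr0' : r0 ≠ 0 := fun h => hr ⟨h, hr1'⟩
      refine ⟨-(x 3 / r0), key _ ?_ ?_⟩
      · rw [hr1', mul_zero, add_zero] at h3
        rw [hr1', mul_zero]
        exact (mul_eq_zero.1 h3).resolve_right hr0'
      · field_simp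
    · refine ⟨x 2 / r1, key _ ?_ ?_⟩
      · field_simp
      · field_simp
        linear_combination h3
  have hq1 : qt D t (x 0) (x 1) = 0 := by
    have h3 : D.H2 t (emb ![x 0, x 1, x 2, x 3]) = 0 := hH 1
    rw [hP, H2_vP] at h3
    rcases mul_eq_zero.1 h3 with h5 | h5
    · exact (mul_eq_zero.1 h5).resolve_left ht0
    · exfalso
      obtain ⟨-, h6⟩ := aniso_K' hodd (del_nonsq_K hsq)
        (x := 2 * cc K' D.b * D.dt t * P - D.kap t) (y := 1) (by
          rw [hψa, map_del, ← ht, Dat.del]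
          linear_combination -4 * cc K' D.b * D.dt t * h5)
      exact one_ne_zero h6
  have hq2 : D.qx K' 0 (emb ![x 0, x 1, 0, 0]) ≠ 0 := by
    intro h
    apply hq
    rw [hQ0, hP, Bq0_vP, hq1, h]
    ring
  -- descent
  have hcc : ∀ c : ℂ, cc K' c = ψ (cc (FractionRing P2) c) := fun c => (map_cc ψ c).symm
  have hcK : ∀ c : ℂ, cc (FractionRing P2) c = algebraMap P2 (FractionRing P2) (C c) := fun c => by
    rw [cc, IsScalarTower.algebraMap_apply ℂ P2 (FractionRing P2), MvPolynomial.algebraMap_eq]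
  have hABC : ¬ ((cc (FractionRing P2) (al D 0) + tK 0 * cc (FractionRing P2) (al D 1) +
        tK 1 * cc (FractionRing P2) (al D 2)) = 0 ∧
      (cc (FractionRing P2) (be D 0) + tK 0 * cc (FractionRing P2) (be D 1) +
        tK 1 * cc (FractionRing P2) (be D 2)) = 0 ∧
      (cc (FractionRing P2) (ga D 0) + tK 0 * cc (FractionRing P2) (ga D 1) +
        tK 1 * cc (FractionRing P2) (ga D 2)) = 0) := by
    rintro ⟨e0, e1, e2⟩
    have hz : ∀ q0 q1 q2 : ℂ, cc (FractionRing P2) q0 + tK 0 * cc (FractionRing P2) q1 +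
        tK 1 * cc (FractionRing P2) q2 = 0 → q0 = 0 := by
      intro q0 q1 q2 h
      rw [hcK, hcK, hcK, tK, tK, ← map_mul, ← map_mul, ← map_add, ← map_add] at h
      exact (Pool.Agent.Helper94.SD.three_zero (hκ _ h)).1
    apply hq2
    rw [qx_xy, hz _ _ _ e0, hz _ _ _ e1, hz _ _ _ e2]
    simp [cc]
  obtain ⟨u, v, γ, hu, hv⟩ := binary_root (K := FractionRing P2) (K' := K') hodd hABC hx (by
    rw [qt_xy] at hq1
    simp only [map_add, map_mul, hψa, ← hcc]
    rw [ht] at hq1
    exact hq1)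
  rw [hψa] at hu hv
  have hsc : ∀ (i : Fin 3), D.qx K' i (emb ![x 0, x 1, 0, 0]) =
      γ ^ 2 * ψ (D.qx (FractionRing P2) i (emb ![u, v, 0, 0])) := by
    intro i
    rw [qx_xy, qx_xy, hu, hv, hcc, hcc, hcc]
    simp only [map_add, map_mul, map_pow]
    ring
  have hγ : γ ≠ 0 := by
    rintro rfl
    apply hx
    rw [hu, hv]
    simp
  have hu1 : qt D tK u v = 0 := by
    apply (map_eq_zero_iff ψ hinjK).1
    rw [qt, hsc, hsc, hsc, ht] at hq1
    have : γ ^ 2 * ψ (qt D tK u v) = 0 := by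
      rw [qt, map_add, map_add, map_mul, map_mul]
      simp only [Function.comp_apply] at hq1
      linear_combination hq1
    exact (mul_eq_zero.1 this).resolve_left (pow_ne_zero 2 hγ)
  have hu2 : D.qx (FractionRing P2) 0 (emb ![u, v, 0, 0]) ≠ 0 := by
    intro h
    apply hq2
    rw [hsc, h, map_zero, mul_zero]
  -- denominators
  obtain ⟨a, b, hb, rfl⟩ := IsFractionRing.div_surjective (A := P2) u
  obtain ⟨c, d, hd, rfl⟩ := IsFractionRing.div_surjective (A := P2) v
  have hb0 : algebraMap P2 (FractionRing P2) b ≠ 0 := by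
    rw [Ne, IsFractionRing.to_map_eq_zero_iff]
    exact nonZeroDivisors.ne_zero hb
  have hd0 : algebraMap P2 (FractionRing P2) d ≠ 0 := by
    rw [Ne, IsFractionRing.to_map_eq_zero_iff]
    exact nonZeroDivisors.ne_zero hd
  have hm : ∀ i, algebraMap P2 (FractionRing P2) (D.qx P2 i (emb (vu ![a * d, c * b]))) =
      (algebraMap P2 (FractionRing P2) b * algebraMap P2 (FractionRing P2) d) ^ 2 *
        D.qx (FractionRing P2) i (emb ![algebraMap P2 (FractionRing P2) a /
          algebraMap P2 (FractionRing P2) b, algebraMap P2 (FractionRing P2) c /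
          algebraMap P2 (FractionRing P2) d, 0, 0]) := by
    intro i
    have e : vu ![a * d, c * b] = ![a * d, c * b, 0, 0] := rfl
    rw [e, qx_xy, qx_xy, hcK, hcK, hcK]
    simp only [cc, MvPolynomial.algebraMap_eq, map_add, map_mul, map_pow]
    field_simp
  refine ⟨![a * d, c * b], ?_, ?_⟩
  · apply hκ
    rw [map_add, map_add, map_mul, map_mul, hm, hm, hm]
    have h7 := hu1
    rw [qt, tK, tK] at h7
    linear_combination (algebraMap P2 (FractionRing P2) b *
      algebraMap P2 (FractionRing P2) d) ^ 2 * h7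
  · intro h
    have h7 := hm 0
    rw [h, map_zero] at h7
    exact hu2 ((mul_eq_zero.1 h7.symm).resolve_left (pow_ne_zero 2 (mul_ne_zero hb0 hd0)))

end Pool.Agent.Helper54.SD
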