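import Pool.Agent.Helper54.SD.OddMain
import Pool.Agent.Helper54.SD.RootU
import Pool.Agent.Helper80.SD.LineP

/-! # SD, odd form: the theorem -/

set_option autoImplicit false
set_option linter.unusedVariables false
set_option linter.unusedSectionVars false

namespace Pool.Agent.Helper54.SD

open MvPolynomial Module Matrix QuadraticMap Pool.Agent.Helper16 Pool.Agent.Helper69.SD

variable {D : Dat} {F : MvPolynomial (Fin 6) ℂ}

/-- a common zero of the two quadrics with `w ≠ 0` -/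
theorem main_w (hF : F.IsHomogeneous 3) (hs : Smooth F) (w : Basis (Fin 6) ℂ (Fin 6 → ℂ))
    (hw : ∀ p : Fin 6 → ℂ, eval (∑ i, p i • w i) F = D.cubic p)
    (ha : D.a ≠ 0) (hb : D.b ≠ 0) (hn : ∃ c : Fin 2 → ℂ, D.dt c ≠ 0) (s : Fin 5 → P2)
    (hH : ∀ i, D.H (X : Fin 2 → P2) i s = 0) (h4 : s 4 ≠ 0) :
    (Ideal.span {dh F}).IsPrime ∧
      Nonempty (FractionRing (MvPolynomial (Fin 5) ℂ ⧸ Ideal.span {dh F}) ≃ₐ[ℂ]
        FractionRing (MvPolynomial (Fin 4) ℂ)) := by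
  have hsD := smooth_F hF hs w hw
  by_cases hr : ∃ v : Fin 4 → P2, D.f X s 0 v ≠ 0
  · obtain ⟨v, hv⟩ := hr
    exact main_point hF hs w hw ha hb hn s hH h4 ⟨emb v, hv⟩
  · push Not at hr
    obtain ⟨s', h1, h2, u, hu⟩ := Pool.Agent.Helper94.SD.rad_case hsD ha hb hn hH h4 hr
    exact main_point hF hs w hw ha hb hn s' h1 h2 ⟨emb u, hu⟩

/-- **The theorem with a point of odd degree of the generic fibre.** -/
theorem odd_main (hF : F.IsHomogeneous 3) (hs : Smooth F) (w : Basis (Fin 6) ℂ (Fin 6 → ℂ))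
    (hw : ∀ p : Fin 6 → ℂ, eval (∑ i, p i • w i) F = D.cubic p)
    (ha : D.a ≠ 0) (hb : D.b ≠ 0) (hn : ∃ c : Fin 2 → ℂ, D.dt c ≠ 0)
    {K' : Type} [Field K'] [Algebra (FractionRing P2) K']
    [Algebra ℂ K'] [IsScalarTower ℂ (FractionRing P2) K']
    (hodd : Odd (Module.finrank (FractionRing P2) K')) (x : Fin 6 → K') (h0 : D.cubic x = 0)
    (hq : D.Q x 0 ≠ 0)
    (h1 : D.Q x 1 = algebraMap (FractionRing P2) K' (algebraMap P2 _ (X 0)) * D.Q x 0)
    (h2 : D.Q x 2 = algebraMap (FractionRing P2) K' (algebraMap P2 _ (X 1)) * D.Q x 0) :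
    (Ideal.span {dh F}).IsPrime ∧
      Nonempty (FractionRing (MvPolynomial (Fin 5) ℂ ⧸ Ideal.span {dh F}) ≃ₐ[ℂ]
        FractionRing (MvPolynomial (Fin 4) ℂ)) := by
  have hsD := smooth_F hF hs w hw
  by_cases h4 : x 4 = 0
  · obtain ⟨u, hu1, hu2⟩ := root_of_point hn (del_nonsq hsD ha hb hn) hodd x h0 hq h1 h2 h4
    obtain ⟨s, hsH, hs4⟩ := point_of_u ha hn (del_nonsq hsD ha hb hn) u hu1 hu2
    exact main_w hF hs w hw ha hb hn s hsH hs4
  · obtain ⟨s, hs0, hsH⟩ := Pool.Agent.Helper15.SD.odd_fibre_point D hodd x h0 hq h1 h2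
    by_cases hs4 : s 4 = 0
    · obtain ⟨s', h5, h6⟩ := Pool.Agent.Helper80.SD.line_P hsD ha hb hn hodd x h0 h4 hq h1 h2
        hs0 hsH hs4
      exact main_w hF hs w hw ha hb hn s' h5 h6
    · exact main_w hF hs w hw ha hb hn s hsH hs4

end Pool.Agent.Helper54.SD
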