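import Pool.Agent.Helper54.SD.CaseC
import Pool.Agent.Helper69.SD.Fin

/-! # SD, odd form: the assembly -/

set_option autoImplicit false
set_option linter.unusedVariables false
set_option linter.unusedSectionVars false

namespace Pool.Agent.Helper54.SD

open MvPolynomial Module Matrix QuadraticMap Pool.Agent.Helper16 Pool.Agent.Helper69.SD

variable {D : Dat} {F : MvPolynomial (Fin 6) ℂ}

/-- the theorem with a point of the generic fibre with `w ≠ 0` outside the radical of `H 0` -/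
theorem main_point (hF : F.IsHomogeneous 3) (hs : Smooth F) (w : Basis (Fin 6) ℂ (Fin 6 → ℂ))
    (hw : ∀ p : Fin 6 → ℂ, eval (∑ i, p i • w i) F = D.cubic p)
    (ha : D.a ≠ 0) (hb : D.b ≠ 0) (hn : ∃ c : Fin 2 → ℂ, D.dt c ≠ 0) (s : Fin 5 → P2)
    (hH : ∀ i, D.H (X : Fin 2 → P2) i s = 0) (h4 : s 4 ≠ 0)
    (hr : ∃ u : Fin 5 → P2, polar (D.H1 X) s u ≠ 0) :
    (Ideal.span {dh F}).IsPrime ∧
      Nonempty (FractionRing (MvPolynomial (Fin 5) ℂ ⧸ Ideal.span {dh F}) ≃ₐ[ℂ]
        FractionRing (MvPolynomial (Fin 4) ℂ)) := by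
  have hsD := smooth_F hF hs w hw
  have hsq := del_nonsq hsD ha hb hn
  have e5 : v5 (Fin.snoc s 0 : Fin 6 → P2) = s := by
    funext j
    simp [v5]
  have e4 : (Fin.snoc s 0 : Fin 6 → P2) 4 = s 4 := congrFun e5 4
  have h0 : D.k0 t4 (s4 (Fin.snoc s 0 : Fin 6 → P2)) D.vg ≠ 0 :=
    k0_ne hsq hn (fun α β hab => indep_of_notRad hsD s hH h4 hr α β (by
      intro v
      have := hab v
      rwa [e5] at this))
  exact main_of_good hF hs w hw hn
    (good_pt5 ha hn (fun i => by rw [e5]; exact hH i) (by rw [e4]; exact h4) h0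
      (sig_ne hsq hn h0))

end Pool.Agent.Helper54.SD
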