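import Pool.Agent.Helper69.SD.Ind
import Pool.Agent.Helper69.SD.K0
import Pool.Agent.Helper80.SD.LineE
import Pool.Agent.Helper94.SD.RadD

/-! # SD, odd form: from a root of `q_T` to a point of the fibre with `w ≠ 0` -/

set_option autoImplicit false
set_option linter.unusedVariables false
set_option linter.unusedSectionVars false

namespace Pool.Agent.Helper54.SD

open MvPolynomial Module Matrix QuadraticMap Pool.Agent.Helper16 Pool.Agent.Helper69.SD
open Pool.Agent.Helper80.SD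

variable {D : Dat}

/-- the section `(u, 0, 0, 0, 0)` -/
noncomputable def zu (u : Fin 2 → P2) : Fin 6 → P2 := ![u 0, u 1, 0, 0, 0, 0]

/-- its first four coordinates -/
noncomputable def vu (u : Fin 2 → P2) : Fin 4 → P2 := ![u 0, u 1, 0, 0]

theorem v5_zu (u : Fin 2 → P2) : v5 (zu u) = emb (vu u) := by
  funext j
  fin_cases j <;> rfl

theorem Q_zu (D : Dat) (u : Fin 2 → P2) (i : Fin 3) : D.Q (zu u) i = 0 := by
  rw [Q_apply, Bq_apply]
  simp [zu, v5]

theorem qy_zu (D : Dat) (u : Fin 2 → P2) (i : Fin 3) : D.qy P2 i (v5 (zu u)) = 0 := by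
  rw [qy_apply]
  simp [cy_apply, zu, v5]

theorem C_zu (D : Dat) (u : Fin 2 → P2) (i : Fin 3) :
    D.C (zu u) i = cc P2 D.a * D.qx P2 i (emb (vu u)) := by
  rw [Dat.C, qy_zu, v5_zu]
  have : zu u 4 = 0 := rfl
  rw [this]
  ring

theorem H_zu (D : Dat) (u : Fin 2 → P2)
    (hq : D.qx P2 0 (emb (vu u)) + X 0 * D.qx P2 1 (emb (vu u)) + X 1 * D.qx P2 2 (emb (vu u)) = 0)
    (i : Fin 2) : D.H (X : Fin 2 → P2) i (emb (vu u)) = 0 := by
  rw [← v5_zu]
  fin_cases i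
  · change D.H1 X (v5 (zu u)) = 0
    rw [H1_eq, Q_zu, Q_zu]
    ring
  · change D.H2 X (v5 (zu u)) = 0
    rw [H2_eq, Q_zu, Q_zu]
    simp only [Fin.sum_univ_three, C_zu, tv, cons_val_zero, cons_val_one, cons_val]
    linear_combination X 0 * cc P2 D.a * hq

/-- independence of the differentials on `w = 0` at the point `(u, 0)` -/
theorem indep_zu (ha : D.a ≠ 0) (hn : ∃ c : Fin 2 → ℂ, D.dt c ≠ 0) (u : Fin 2 → P2)
    (hq : D.qx P2 0 (emb (vu u)) + X 0 * D.qx P2 1 (emb (vu u)) + X 1 * D.qx P2 2 (emb (vu u)) = 0)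
    (h0 : D.qx P2 0 (emb (vu u)) ≠ 0) (α β : P2)
    (hab : ∀ v : Fin 4 → P2, α * D.f X (v5 (zu u)) 0 v + β * D.f X (v5 (zu u)) 1 v = 0) :
    α = 0 ∧ β = 0 := by
  have hX0 : (X 0 : P2) ≠ 0 := X_ne_zero 0
  have hXs : (aeval (zu u) : MvPolynomial (Fin 6) ℂ →ₐ[ℂ] P2) ∘ X = zu u := by
    funext m; simp
  have hdQ : ∀ (k : Fin 2) (i : Fin 3), dd (zu u) (fun m => pderiv k (zu u m)) (D.Q X i) = 0 := by
    intro k i
    rw [dd_der, map_Q, hXs, Q_zu, map_zero]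
  have hdC : ∀ (k : Fin 2) (i : Fin 3), dd (zu u) (fun m => pderiv k (zu u m)) (D.C X i) =
      pderiv k (D.C (zu u) i) := by
    intro k i
    rw [dd_der, Pool.Agent.Helper69.SD.map_C, hXs]
  have hC' : D.C (zu u) 0 + X 0 * D.C (zu u) 1 + X 1 * D.C (zu u) 2 = 0 := by
    rw [C_zu, C_zu, C_zu]
    linear_combination cc P2 D.a * hq
  have hb : ∀ k : Fin 2, β * (X 0 * (pderiv k (D.C (zu u) 0) + X 0 * pderiv k (D.C (zu u) 1) +
      X 1 * pderiv k (D.C (zu u) 2))) = 0 := by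
    intro k
    have e : v5 (fun m => pderiv k (zu u m)) = emb (vu (fun m => pderiv k (u m))) := by
      funext j
      fin_cases j <;> simp [v5, zu, emb_apply, vu]
    have h1 := hab (vu (fun m => pderiv k (u m)))
    change α * polar (D.H1 X) (v5 (zu u)) (emb (vu (fun m => pderiv k (u m)))) +
      β * polar (D.H2 X) (v5 (zu u)) (emb (vu (fun m => pderiv k (u m)))) = 0 at h1
    rw [← e, polar_H1, polar_H2] at h1
    simp only [hdQ, hdC, Fin.sum_univ_three, tv, cons_val_zero, cons_val_one, cons_val] at h1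
    linear_combination h1
  have c0 : β * X 0 * D.C (zu u) 1 = 0 := by
    have h1 := hb 0
    have h2 := congrArg (pderiv (0 : Fin 2)) hC'
    simp only [map_add, Derivation.leibniz, smul_eq_mul, pderiv_X_self, map_zero,
      pderiv_X_of_ne (show (1 : Fin 2) ≠ 0 by decide)] at h1 h2
    linear_combination β * X 0 * h2 - h1
  have c1 : β * X 0 * D.C (zu u) 2 = 0 := by
    have h1 := hb 1
    have h2 := congrArg (pderiv (1 : Fin 2)) hC'
    simp only [map_add, Derivation.leibniz, smul_eq_mul, pderiv_X_self, map_zero,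
      pderiv_X_of_ne (show (0 : Fin 2) ≠ 1 by decide)] at h1 h2
    linear_combination β * X 0 * h2 - h1
  have hca : cc P2 D.a ≠ 0 := by
    rw [Ne, ← cc_def, MvPolynomial.algebraMap_eq, C_eq_zero]
    exact ha
  have hβ : β = 0 := by
    have h1 : β * (X 0 * (cc P2 D.a * D.qx P2 0 (emb (vu u)))) = 0 := by
      rw [← C_zu]
      linear_combination β * X 0 * hC' - X 0 * c0 - X 1 * c1
    exact (mul_eq_zero.1 h1).resolve_right (mul_ne_zero hX0 (mul_ne_zero hca h0))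
  refine ⟨?_, hβ⟩
  have hv0 : vu u ≠ 0 := by
    intro h
    apply h0
    rw [h, map_zero, QuadraticMap.map_zero]
  obtain ⟨u', hu'⟩ := Pool.Agent.Helper94.SD.nondeg D hn hv0
  have h1 := hab u'
  rw [hβ, zero_mul, add_zero] at h1
  have h2 : D.f X (v5 (zu u)) 0 u' ≠ 0 := by
    rw [v5_zu]
    exact hu'
  exact (mul_eq_zero.1 h1).resolve_right h2

/-- a non-zero polynomial in four variables has a non-zero specialisation of the last two -/
theorem exists_spec (p : R4) (hp : p ≠ 0) : ∃ c : Fin 2 → ℂ,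
    (aeval ![X 0, X 1, C (c 0), C (c 1)] : R4 →ₐ[ℂ] P2) p ≠ 0 := by
  by_contra hcon
  push Not at hcon
  apply hp
  apply MvPolynomial.funext
  intro x
  rw [map_zero]
  have h1 := congrArg (eval ![x 0, x 1]) (hcon ![x 2, x 3])
  rw [map_zero] at h1
  rw [← h1, ← aeval_eq_eval, ← aeval_eq_eval]
  rw [← AlgHom.comp_apply, comp_aeval]
  congr 2
  funext m
  fin_cases m <;> simp

/-- there is a direction `v` with `k0 v ≠ 0` -/
theorem exists_k0 (s : Fin 6 → P2) (h : D.k0 t4 (s4 s) D.vg ≠ 0) :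
    ∃ v : Fin 4 → P2, D.k0 X (v5 s) v ≠ 0 := by
  obtain ⟨c, hc⟩ := exists_spec _ h
  obtain ⟨φ, hφ⟩ : ∃ φ : R4 →ₐ[ℂ] P2, φ = aeval ![X 0, X 1, C (c 0), C (c 1)] := ⟨_, rfl⟩
  rw [← hφ] at hc
  refine ⟨φ ∘ D.vg, ?_⟩
  rw [map_k0] at hc
  have e1 : φ ∘ t4 = (X : Fin 2 → P2) := by
    funext k
    fin_cases k <;> simp [t4, hφ]
  have e2 : φ ∘ s4 s = v5 s := by
    have h2 : φ.comp inc = AlgHom.id ℂ P2 := by
      apply MvPolynomial.algHom_ext
      intro i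
      rw [AlgHom.comp_apply, inc, aeval_X, AlgHom.id_apply]
      exact congrFun e1 i
    funext j
    exact AlgHom.congr_fun h2 (v5 s j)
  rwa [e1, e2] at hc

/-- the residual point of a plane through the line spanned by `v₀`, `Θ v₀` -/
theorem residual (D : Dat) (v0 : Fin 4 → P2) (hv : ∀ i, D.H (X : Fin 2 → P2) i (emb v0) = 0)
    (v : Fin 4 → P2) (hk : D.k0 X (emb v0) v ≠ 0) :
    ∃ s' : Fin 5 → P2, (∀ i, D.H (X : Fin 2 → P2) i s' = 0) ∧ s' 4 ≠ 0 := by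
  obtain ⟨p, hp⟩ : ∃ p : Fin 2 → (Fin 5 → P2) → P2,
    p = fun i y => polar (D.H (X : Fin 2 → P2) i) (emb v0) y := ⟨_, rfl⟩
  obtain ⟨p', hp'⟩ : ∃ p' : Fin 2 → (Fin 5 → P2) → P2,
    p' = fun i y => polar (D.H (X : Fin 2 → P2) i) (emb (D.Th X v0)) y := ⟨_, rfl⟩
  obtain ⟨e, he⟩ : ∃ e : Fin 5 → P2, e = ![0, 0, 0, 0, 1] := ⟨_, rfl⟩
  -- a vector with `w ≠ 0`
  obtain ⟨y, hy4, hy⟩ : ∃ y : Fin 5 → P2, y 4 ≠ 0 ∧ p 0 y * p' 1 y - p' 0 y * p 1 y ≠ 0 := by
    by_contra hcon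
    push Not at hcon
    apply hk
    have h1 : ∀ c : P2, c ≠ 0 → (p 0 (emb v) + c * p 0 e) * (p' 1 (emb v) + c * p' 1 e) -
        (p' 0 (emb v) + c * p' 0 e) * (p 1 (emb v) + c * p 1 e) = 0 := by
      intro c hc
      have h2 := hcon (emb v + c • e) (by rw [he, emb_apply]; simpa using hc)
      simp only [hp, hp', polar_add_right, polar_smul_right, smul_eq_mul] at h2 ⊢
      exact h2
    have a1 := h1 1 one_ne_zero
    have a2 := h1 2 two_ne_zero
    have a3 := h1 3 (by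
      have := (Nat.cast_ne_zero (R := P2)).mpr (show (3 : ℕ) ≠ 0 by norm_num)
      exact_mod_cast this)
    have e0 : D.k0 X (emb v0) v = -(p 0 (emb v) * p' 1 (emb v) - p' 0 (emb v) * p 1 (emb v)) := by
      rw [Dat.k0]
      simp only [Dat.f, P_Th_right, hp, hp']
      ring
    rw [e0]
    linear_combination -3 * a1 + 3 * a2 - a3
  obtain ⟨ρ, hρ⟩ : ∃ ρ, ρ = p 0 y * p' 1 y - p' 0 y * p 1 y := ⟨_, rfl⟩
  rw [← hρ] at hy
  obtain ⟨h, hh⟩ : ∃ h : Fin 2 → P2, h = fun i => D.H (X : Fin 2 → P2) i y := ⟨_, rfl⟩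
  obtain ⟨m1, hm1⟩ : ∃ m1, m1 = p' 0 y * h 1 - h 0 * p' 1 y := ⟨_, rfl⟩
  obtain ⟨m2, hm2⟩ : ∃ m2, m2 = h 0 * p 1 y - p 0 y * h 1 := ⟨_, rfl⟩
  refine ⟨ρ • y + emb (m1 • v0 + m2 • D.Th X v0), fun i => ?_, ?_⟩
  · have key : ρ * h i + m1 * p i y + m2 * p' i y = 0 := by
      rw [hρ, hm1, hm2]
      fin_cases i <;> simp only [Fin.zero_eta, Fin.mk_one] <;> ring
    have hz : D.H (X : Fin 2 → P2) i (emb (m1 • v0 + m2 • D.Th X v0)) = 0 := by
      simp only [map_add, map_smul, H_add, QuadraticMap.map_smul, polar_smul_left,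
        polar_smul_right, hv, H_Th, P_self, smul_eq_mul, mul_zero, add_zero]
    have hpol : polar (D.H (X : Fin 2 → P2) i) y (emb (m1 • v0 + m2 • D.Th X v0)) =
        m1 * p i y + m2 * p' i y := by
      rw [polar_comm]
      simp only [map_add, map_smul, polar_add_left, polar_smul_left, smul_eq_mul, hp, hp']
    rw [H_add, QuadraticMap.map_smul, hz, polar_smul_left, hpol]
    have hhi : D.H (X : Fin 2 → P2) i y = h i := by rw [hh]
    rw [hhi, smul_eq_mul, smul_eq_mul]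
    linear_combination ρ * key
  · have : (ρ • y + emb (m1 • v0 + m2 • D.Th X v0)) 4 = ρ * y 4 := by
      rw [emb_apply]
      simp
    rw [this]
    exact mul_ne_zero hy hy4

/-- from a root `u` of `q_T` with `qx 0 u ≠ 0` to a point with `w ≠ 0` -/
theorem point_of_u (ha : D.a ≠ 0) (hn : ∃ c : Fin 2 → ℂ, D.dt c ≠ 0)
    (hsq : ∀ m n : P2, m ^ 2 * D.del (X : Fin 2 → P2) = n ^ 2 → m = 0) (u : Fin 2 → P2)
    (hq : D.qx P2 0 (emb (vu u)) + X 0 * D.qx P2 1 (emb (vu u)) + X 1 * D.qx P2 2 (emb (vu u)) = 0)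
    (h0 : D.qx P2 0 (emb (vu u)) ≠ 0) :
    ∃ s' : Fin 5 → P2, (∀ i, D.H (X : Fin 2 → P2) i s' = 0) ∧ s' 4 ≠ 0 := by
  have hk := k0_ne (s := zu u) hsq hn (indep_zu ha hn u hq h0)
  obtain ⟨v, hv⟩ := exists_k0 (zu u) hk
  rw [v5_zu] at hv
  exact residual D (vu u) (H_zu D u hq) v hv

end Pool.Agent.Helper54.SD
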